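import Pool.Agent.H.MP_4bdd60_an.UN.Loc

/-!
# MP_4bdd60_an, countable intersection: continuous primitives

`LPr ... G w`: `G` is continuous at `w` and a primitive of the form at `w` if `w ∉ K ∩ L`.

PROOF of `uniq`. On a ball `B` round `z` the function `D = G - H` is continuous, and near every point of `B` off `K ∩ L` it is constant
(`loc_unique`). So `D '' (B \ (K ∩ L))` is countable (Lindelöf: countably many of the open sets on which `D` is constant cover
`B \ (K ∩ L)`), `D '' (K ∩ L)` is countable, so `D '' B` is countable and preconnected (`B` is convex), so it has at most one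
point (`Set.Countable.isTotallyDisconnected` or similar in Mathlib; or: a norm or a coordinate of `D` would take all values of an interval).
-/

set_option autoImplicit false

open Set Filter Topology Metric MeasureTheory
open scoped ENNReal Real

namespace Pool.Agent.H.MP_4bdd60_an.CT

open UN

variable {K L : Set ℂ} {f : ℂ ≃ₜ ℂ} {k1 k2 : ℂ → ℂ}

/-- `G` is continuous at `w` and a primitive of the form there if `w ∉ K ∩ L`. -/
def LPr (K L : Set ℂ) (f : ℂ ≃ₜ ℂ) (k1 k2 : ℂ → ℂ) (G : ℂ → ℂ) (w : ℂ) : Prop :=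
  ContinuousAt G w ∧ (w ∉ K ∩ L → IsPr K L f k1 k2 G w)

theorem LPr.add_const {G : ℂ → ℂ} {w : ℂ} (h : LPr K L f k1 k2 G w) (c : ℂ) :
    LPr K L f k1 k2 (fun v => G v + c) w :=
  ⟨h.1.add continuousAt_const, fun hw => (h.2 hw).add_const c⟩

theorem LPr.congr {G H : ℂ → ℂ} {w : ℂ} (h : LPr K L f k1 k2 G w) (he : H =ᶠ[𝓝 w] G) :
    LPr K L f k1 k2 H w :=
  ⟨h.1.congr he.symm, fun hw => (h.2 hw).congr he⟩

theorem uniq (hK : IsClosed K) (hL : IsClosed L) (hP : (K ∩ L).Countable) {z : ℂ} {G H : ℂ → ℂ}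
    (hG : ∀ᶠ w in 𝓝 z, LPr K L f k1 k2 G w) (hH : ∀ᶠ w in 𝓝 z, LPr K L f k1 k2 H w) :
    ∃ c : ℂ, ∀ᶠ w in 𝓝 z, G w = H w + c := by
  obtain ⟨r, hr, hB⟩ := Metric.eventually_nhds_iff_ball.1 (hG.and hH)
  have hcl : IsClosed (K ∩ L) := hK.inter hL
  obtain ⟨D, hD⟩ : ∃ D : ℂ → ℂ, D = fun w => G w - H w := ⟨_, rfl⟩
  have hcont : ContinuousOn D (ball z r) := by
    intro w hw
    rw [hD]
    exact ((hB w hw).1.1.sub (hB w hw).2.1).continuousWithinAt
  have hloc : ∀ w ∈ ball z r \ (K ∩ L), {y | D y = D w} ∈ 𝓝[ball z r \ (K ∩ L)] w := by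
    intro w hw
    have h1 : ∀ᶠ y in 𝓝 w, y ∈ ball z r ∧ y ∉ K ∩ L :=
      (isOpen_ball.eventually_mem hw.1).and (hcl.isOpen_compl.eventually_mem hw.2)
    obtain ⟨c, hc⟩ := loc_unique hK hL hw.2
      (h1.mono fun y hy => (hB y hy.1).1.2 hy.2) (h1.mono fun y hy => (hB y hy.1).2.2 hy.2)
    have h2 : G w = H w + c := hc.self_of_nhds
    refine mem_nhdsWithin_of_mem_nhds ?_
    filter_upwards [hc] with y hy
    show D y = D w
    rw [hD]
    show G y - H y = G w - H w
    rw [hy, h2]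
    ring
  obtain ⟨t, hts, htc, hcov⟩ := TopologicalSpace.countable_cover_nhdsWithin hloc
  have hcount : (D '' ball z r).Countable := by
    have h1 : D '' ball z r ⊆ D '' (K ∩ L) ∪ D '' t := by
      rintro _ ⟨w, hw, rfl⟩
      by_cases hKL : w ∈ K ∩ L
      · exact Or.inl ⟨w, hKL, rfl⟩
      · obtain ⟨x, hx, hwx⟩ := Set.mem_iUnion₂.1 (hcov ⟨hw, hKL⟩)
        exact Or.inr ⟨x, hx, (show D w = D x from hwx).symm⟩
    exact ((hP.image D).union (htc.image D)).mono h1
  have hsub := hcount.isTotallyDisconnected (D '' ball z r) Subset.rfl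
    ((convex_ball z r).isPreconnected.image D hcont)
  refine ⟨D z, ?_⟩
  filter_upwards [Metric.ball_mem_nhds z hr] with w hw
  have h1 : D w = D z := hsub ⟨w, hw, rfl⟩ ⟨z, mem_ball_self hr, rfl⟩
  rw [← h1, hD]
  show G w = H w + (G w - H w)
  ring

end Pool.Agent.H.MP_4bdd60_an.CT
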