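import Pool.Agent.H.MP_4bdd60_an.CT.Unic

/-!
# MP_4bdd60_an: a one-sided form of the union theorem, and countable unions
-/

set_option autoImplicit false

open Set Filter Topology Metric MeasureTheory
open scoped ENNReal Real

namespace Pool.Agent.H.MP_4bdd60_an.CT

open UN LP

variable {K L : Set ℂ} {f : ℂ ≃ₜ ℂ} {k1 k2 : ℂ → ℂ}

/-- One-sided form: if `K` is removable then a homeomorphism which is holomorphic off `K ∪ L` is holomorphic off `L`. -/
theorem union_locC (hK : IsCompact K) (hL : IsCompact L) (hP : (K ∩ L).Countable)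
    (hg : ∀ p ∈ K ∩ L, Loops (K ∪ L) p) (f : ℂ ≃ₜ ℂ) (hf : DifferentiableOn ℂ f (K ∪ L)ᶜ) :
    (∃ g : ℂ ≃ₜ ℂ, DifferentiableOn ℂ g Kᶜ ∧ ¬ Differentiable ℂ g) ∨ DifferentiableOn ℂ f Lᶜ := by
  obtain ⟨k1, k2, hF⟩ := exists_form K L hK hL f hf
  have hKc := hK.isClosed
  have hLc := hL.isClosed
  obtain ⟨hnK, hnL⟩ := nonvanC hKc hLc hP hF hf
  obtain ⟨F, hFl⟩ := exists_FC hKc hLc hP hg hf hF
  have hFc : Continuous F := continuous_iff_continuousAt.2 fun z => (hFl z).1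
  have hFP : ∀ z, z ∉ K ∩ L → IsPr K L f k1 k2 F z := fun z hz => (hFl z).2 hz
  have hFK : ∀ z, z ∉ K → HasDerivAt F (k1 z) z := fun z hz => (hFP z fun h => hz h.1).1 hz
  have hFL : ∀ z, z ∉ L → HasDerivAt (fun v => F (f.symm v)) (k2 (f z)) (f z) := fun z hz =>
    (hFP z fun h => hz h.2).2 hz
  obtain ⟨C0, R0, hR0, hCR0⟩ := hF.inf
  obtain ⟨C, R, hCR⟩ := asy hR0 (fun z hz => hFK z (hCR0 z hz).1) (fun z hz => (hCR0 z hz).2.2)
  -- behaviour at infinity
  have hprop : Tendsto F (cocompact ℂ) (cocompact ℂ) := by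
    rw [← Metric.cobounded_eq_cocompact, ← comap_norm_atTop]
    refine tendsto_comap_iff.2 ?_
    refine tendsto_atTop.2 fun M => ?_
    have hev : ∀ᶠ z : ℂ in comap norm atTop, max R (M + C) < ‖z‖ :=
      tendsto_comap.eventually (eventually_gt_atTop _)
    filter_upwards [hev] with z hz
    have h1 := hCR z (lt_of_le_of_lt (le_max_left _ _) hz)
    have h2 : M + C < ‖z‖ := lt_of_le_of_lt (le_max_right _ _) hz
    have h3 : ‖z‖ ≤ ‖F z‖ + ‖F z - z‖ := by
      have : z = F z - (F z - z) := by ring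
      calc ‖z‖ = ‖F z - (F z - z)‖ := by rw [← this]
        _ ≤ _ := norm_sub_le _ _
    simp only [Function.comp]
    linarith
  have hinf : ∃ R : ℝ, InjOn F {z | R < ‖z‖} := by
    refine inj_inf (R := max R R0) (C := C) ?_ fun z hz => hCR z (lt_of_le_of_lt (le_max_left _ _) hz)
    intro z hz
    have hz' : max R R0 < ‖z‖ := by simpa using hz
    exact (hFK z (hCR0 z (lt_of_le_of_lt (le_max_right _ _) hz')).1).differentiableAt.differentiableWithinAt
  obtain ⟨⟨Z, cZ, hloc⟩, hopen⟩ := openC hKc hLc hP hF hnK hnL isOpen_univ fun z _ => hFl z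
  obtain ⟨G, hG⟩ := homeo_of_charts F hFc 0 1 zero_ne_one hprop hinf Z cZ
    (fun z hz => hloc z (mem_univ z) hz) fun z _ _ => hopen z (mem_univ z)
  have hGF : (G : ℂ → ℂ) = F := funext hG
  have hG1 : DifferentiableOn ℂ G Kᶜ := by
    rw [hGF]
    exact fun z hz => (hFK z hz).differentiableAt.differentiableWithinAt
  have hG2 : DifferentiableOn ℂ (fun w => G (f.symm w)) (f '' Lᶜ) := by
    rw [hGF]
    rintro _ ⟨z, hz, rfl⟩
    exact (hFL z hz).differentiableAt.differentiableWithinAt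
  by_cases hGd : Differentiable ℂ G
  · exact Or.inr (endgame f G hLc hGd hG2)
  · exact Or.inl ⟨G, hG1, hGd⟩

/-- The property `Loops` for a smaller set. -/
theorem loops_mono {E E' : Set ℂ} {p : ℂ} (h : Loops E p) (hEE : E' ⊆ E) : Loops E' p := by
  intro ρ h1 h2 δ ε h3 h4
  obtain ⟨c, c', hc, h5, h6, ⟨T, hT, h7⟩, h8, h9⟩ := h ρ h1 h2 δ ε h3 h4
  exact ⟨c, c', hc, h5, h6, ⟨T, hT, fun t ht => ⟨fun h => (h7 t ht).1 (hEE h), (h7 t ht).2⟩⟩, h8, h9⟩

/-- A closed set which is covered, in an open set `U`, by countably many closed sets: near some point one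
of them is enough. -/
private theorem Cou_pick {S U : Set ℂ} (hS : IsClosed S) (hU : IsOpen U) (hne : (S ∩ U).Nonempty)
    (A : ℕ → Set ℂ) (hA : ∀ n, IsClosed (A n)) (hcov : S ∩ U ⊆ ⋃ n, A n) :
    ∃ q ∈ S ∩ U, ∃ (n : ℕ) (r : ℝ), 0 < r ∧ S ∩ ball q r ⊆ A n := by
  have hc : CompleteSpace S := hS.completeSpace_coe
  have hB : BaireSpace S := inferInstance
  obtain ⟨f, hf⟩ : ∃ f : Option ℕ → Set S, f = fun o => match o with
    | none => {x : S | (x : ℂ) ∈ Uᶜ}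
    | some n => {x : S | (x : ℂ) ∈ A n} := ⟨_, rfl⟩
  have hfc : ∀ o, IsClosed (f o) := by
    intro o
    rw [hf]
    cases o with
    | none => exact hU.isClosed_compl.preimage continuous_subtype_val
    | some n => exact (hA n).preimage continuous_subtype_val
  have hfu : ⋃ o, f o = univ := by
    rw [eq_univ_iff_forall]
    intro x
    rw [mem_iUnion]
    by_cases hx : (x : ℂ) ∈ U
    · obtain ⟨n, hn⟩ := mem_iUnion.mp (hcov ⟨x.2, hx⟩)
      exact ⟨some n, by rw [hf]; exact hn⟩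
    · exact ⟨none, by rw [hf]; exact hx⟩
  have hd := dense_iUnion_interior_of_closed hfc hfu
  have hUo : IsOpen {x : S | (x : ℂ) ∈ U} := hU.preimage continuous_subtype_val
  obtain ⟨z, hzS, hzU⟩ := hne
  obtain ⟨x, hxU, hxi⟩ := hd.inter_open_nonempty _ hUo ⟨⟨z, hzS⟩, hzU⟩
  obtain ⟨o, ho⟩ := mem_iUnion.mp hxi
  cases o with
  | none =>
    have h1 := interior_subset ho
    rw [hf] at h1
    exact absurd hxU h1
  | some n =>
    obtain ⟨V, hV1, hV2, hV3⟩ := mem_interior.mp ho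
    obtain ⟨r, hr, hball⟩ := Metric.isOpen_iff.mp hV2 x hV3
    refine ⟨x, ⟨x.2, hxU⟩, n, r, hr, ?_⟩
    rintro w ⟨hwS, hwb⟩
    have h2 : (⟨w, hwS⟩ : S) ∈ ball x r := by
      rw [mem_ball, Subtype.dist_eq]
      exact hwb
    have h3 := hV1 (hball h2)
    rw [hf] at h3
    exact h3

/-- A continuous function which is holomorphic in a ball off a countable set is holomorphic in the ball. -/
private theorem Cou_cnt {f : ℂ → ℂ} (hf : Continuous f) {D : Set ℂ} (hD : D.Countable) {q : ℂ} {r : ℝ}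
    (hd : ∀ z ∈ ball q r, z ∉ D → DifferentiableAt ℂ f z) : ∀ z ∈ ball q r, DifferentiableAt ℂ f z := by
  intro z hz
  obtain ⟨s, hs, hball⟩ := Metric.isOpen_iff.1 (isOpen_ball : IsOpen (ball q r)) z hz
  have hs2 : (0 : NNReal) < ⟨s / 2, by linarith⟩ := by
    rw [← NNReal.coe_lt_coe]
    change (0 : ℝ) < s / 2
    linarith
  have h1 := Complex.hasFPowerSeriesOnBall_of_differentiable_off_countable (R := ⟨s / 2, by linarith⟩)
    (c := z) (f := f) hD hf.continuousOn (fun w hw => hd w (hball (ball_subset_ball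
      (show ((⟨s / 2, by linarith⟩ : NNReal) : ℝ) ≤ s by change s / 2 ≤ s; linarith) hw.1)) hw.2) hs2
  exact h1.analyticAt.differentiableAt

/-- Countable unions. -/
theorem loop_countable {E U : Set ℂ} (hE : IsCompact E) (hU : IsOpen U) {D : Set ℂ} (hD : D.Countable)
    (hJ : ∀ p ∈ E ∩ U, p ∉ D → ∀ r : ℝ, 0 < r → ∃ J J' : Set ℂ, IsClosed J ∧ IsClosed J' ∧ J ∪ J' = E ∧
      J ⊆ ball p r ∧ p ∉ J' ∧ (J ∩ J').Countable ∧ ∀ q ∈ J ∩ J', Loops E q)
    (A : ℕ → Set ℂ) (hA : ∀ n, IsClosed (A n)) (hcov : E ∩ U ⊆ ⋃ n, A n)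
    (f : ℂ ≃ₜ ℂ) (hf : DifferentiableOn ℂ f Eᶜ) (hfn : ¬ Differentiable ℂ f) :
    (∃ n, ∃ g : ℂ ≃ₜ ℂ, DifferentiableOn ℂ g (E ∩ A n)ᶜ ∧ ¬ Differentiable ℂ g) ∨
      ∃ g : ℂ ≃ₜ ℂ, DifferentiableOn ℂ g (E \ U)ᶜ ∧ ¬ Differentiable ℂ g := by
  by_cases hrem : ∃ n, ∃ g : ℂ ≃ₜ ℂ, DifferentiableOn ℂ g (E ∩ A n)ᶜ ∧ ¬ Differentiable ℂ g
  · exact Or.inl hrem
  right
  refine ⟨f, ?_, hfn⟩
  have hEc := hE.isClosed
  -- the set where `f` is not holomorphic
  obtain ⟨S, hSd⟩ : ∃ S : Set ℂ, S = (interior {z | DifferentiableAt ℂ f z})ᶜ := ⟨_, rfl⟩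
  have hSc : IsClosed S := by
    rw [hSd]
    exact isOpen_interior.isClosed_compl
  have hfS : ∀ z, z ∉ S → DifferentiableAt ℂ f z := by
    intro z hz
    rw [hSd, mem_compl_iff, not_not] at hz
    have h2 : z ∈ {z | DifferentiableAt ℂ f z} := interior_subset hz
    exact h2
  have hSE : S ⊆ E := by
    intro z hz
    by_contra hno
    rw [hSd] at hz
    apply hz
    rw [mem_interior]
    refine ⟨Eᶜ, ?_, hEc.isOpen_compl, hno⟩
    intro w hw'
    exact hf.differentiableAt (hEc.isOpen_compl.mem_nhds hw')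
  have hempty : ¬ (S ∩ U).Nonempty := by
    intro hne
    obtain ⟨q, ⟨hqS, hqU⟩, n, r, hr, hqr⟩ := Cou_pick hSc hU hne A hA
      ((inter_subset_inter_left _ hSE).trans hcov)
    obtain ⟨r2, hr2, hball2⟩ := Metric.isOpen_iff.1 hU q hqU
    obtain ⟨r1, hr1, hr1r, hr1U⟩ : ∃ r1 : ℝ, 0 < r1 ∧ r1 ≤ r ∧ ball q r1 ⊆ U :=
      ⟨min r r2, lt_min hr hr2, min_le_left _ _, (ball_subset_ball (min_le_right _ _)).trans hball2⟩
    have hex : ∃ p ∈ S ∩ ball q r1, p ∉ D := by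
      by_contra hcon
      push Not at hcon
      have h1 := Cou_cnt (q := q) (r := r1) f.continuous hD fun z hz hzD =>
        hfS z fun hzS => hzD (hcon z ⟨hzS, hz⟩)
      rw [hSd] at hqS
      exact hqS (mem_interior.2 ⟨ball q r1, h1, isOpen_ball, mem_ball_self hr1⟩)
    obtain ⟨p, ⟨hpS, hpb⟩, hpD⟩ := hex
    rw [mem_ball] at hpb
    obtain ⟨J, J', hJ1, hJ2, hJE, hJb, hpJ, hJc, hJl⟩ := hJ p ⟨hSE hpS, hr1U hpb⟩ hpD (r1 - dist p q)
      (by linarith)
    have hun : (S ∩ J) ∪ (S ∩ J') = S := by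
      rw [← inter_union_distrib_left, hJE]
      exact inter_eq_left.2 hSE
    have hSk : IsCompact S := hE.of_isClosed_subset hSc hSE
    have hsub : (S ∩ J) ∩ (S ∩ J') ⊆ J ∩ J' := fun z hz => ⟨hz.1.2, hz.2.2⟩
    rcases union_locC (hSk.inter_right hJ1) (hSk.inter_right hJ2) (hJc.mono hsub)
      (fun x hx => loops_mono (hJl x (hsub hx)) (by rw [hun]; exact hSE)) f (by
        rw [hun]
        exact fun z hz => (hfS z hz).differentiableWithinAt) with ⟨g, hg1, hg2⟩ | hfL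
    · apply hrem
      refine ⟨n, g, hg1.mono (compl_subset_compl.2 ?_), hg2⟩
      rintro w ⟨hwS, hwJ⟩
      refine ⟨hSE hwS, hqr ⟨hwS, ?_⟩⟩
      have h1 := hJb hwJ
      rw [mem_ball] at h1 ⊢
      have h2 := dist_triangle w p q
      linarith
    · have hop : IsOpen (S ∩ J')ᶜ := (hSc.inter hJ2).isOpen_compl
      rw [hSd] at hpS
      refine hpS (mem_interior.2 ⟨(S ∩ J')ᶜ, fun w hw => hfL.differentiableAt (hop.mem_nhds hw), hop,
        fun h => hpJ h.2⟩)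
  intro z hz
  have hzS : z ∉ S := by
    intro h
    by_cases hzU : z ∈ U
    · exact hempty ⟨z, h, hzU⟩
    · exact hz ⟨hSE h, hzU⟩
  exact (hfS z hzS).differentiableWithinAt

end Pool.Agent.H.MP_4bdd60_an.CT
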