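import Mathlib

/-!
# MP_4bdd60_an, countable intersection: isolated points

PROOF. `C` is a complete metric space which is the union of countably many points; by Baire
(`nonempty_interior_of_iUnion_of_closed` in the subtype `C`) one point is open in `C`.
-/

set_option autoImplicit false

open Set Filter Topology Metric

namespace Pool.Agent.H.MP_4bdd60_an.CT

theorem exists_iso {C : Set ℂ} (hC : IsClosed C) (hne : C.Nonempty) (hcnt : C.Countable) :
    ∃ p ∈ C, ∃ R : ℝ, 0 < R ∧ ∀ w ∈ ball p R, w ≠ p → w ∉ C := by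
  have h1 : CompleteSpace C := hC.completeSpace_coe
  have h2 : Nonempty C := hne.to_subtype
  have h3 : Countable C := hcnt.to_subtype
  obtain ⟨p, q, hq⟩ := nonempty_interior_of_iUnion_of_closed (X := C) (ι := C)
    (f := fun i => {i}) (fun i => isClosed_singleton)
    (Set.eq_univ_of_forall fun x => Set.mem_iUnion.2 ⟨x, rfl⟩)
  have hqp' : q ∈ ({p} : Set C) := interior_subset hq
  have hqp : q = p := hqp'
  rw [hqp, mem_interior_iff_mem_nhds, Metric.mem_nhds_iff] at hq
  obtain ⟨R, hR, h4⟩ := hq
  refine ⟨p.1, p.2, R, hR, fun w hw hwp hwC => hwp ?_⟩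
  have h5 : (⟨w, hwC⟩ : C) ∈ ball p R := hw
  have h6 : (⟨w, hwC⟩ : C) = p := h4 h5
  exact congrArg Subtype.val h6

end Pool.Agent.H.MP_4bdd60_an.CT
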