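import Mathlib

/-!
# MP_4bdd60_an, countable intersection: openness at exceptional points

PROOF of `open_loc`. As `open_exc` in UN/Op.lean. Let `z ∈ U ∩ P`, `w0 = F z`. The set `{x ∈ U | F x = w0}` is countable (off `Z` its points
are isolated in it). So there is `0 < r` with `closedBall z r ⊆ U ∩ interior N` and `F ≠ w0` on `sphere z r`; `d > 0` = the distance of
`w0` to `F '' sphere z r`, `V = ball w0 d`. Let `Q = F '' (P ∩ closedBall z r)`: countable. `V \ Q` is preconnected (a ball minus a countable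
set: transport `Set.Countable.isConnected_compl_of_one_lt_rank` by the homeomorphism of `ℂ` onto the ball,
`OpenPartialHomeomorph.univBall`, or Mathlib's version for open connected sets). In `V \ Q` the set `F '' closedBall z r` is closed (compact
image) and open (a point of it in `V \ Q` is `F x` with `x ∈ ball z r`, `x ∉ P`). It is not empty: otherwise `F` maps a ball round `z`
into the countable set `Q`, so it is constant there (connected countable image), against the countable fibre. So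
`V \ Q ⊆ F '' closedBall z r`, and `V ⊆ F '' closedBall z r` since `V \ Q` is dense in `V` and the image is closed.
-/

set_option autoImplicit false

open Set Filter Topology Metric

namespace Pool.Agent.H.MP_4bdd60_an.CT

private theorem Opc_ball (c : ℂ) {d : ℝ} (hd : 0 < d) {Q : Set ℂ} (hQ : Q.Countable) :
    IsPreconnected (ball c d \ Q) := by
  obtain ⟨φ, hφ⟩ : ∃ φ : OpenPartialHomeomorph ℂ ℂ, φ = OpenPartialHomeomorph.univBall c d :=
    ⟨_, rfl⟩
  have hs : φ.source = univ := by rw [hφ]; exact OpenPartialHomeomorph.univBall_source c d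
  have ht : φ.target = ball c d := by rw [hφ]; exact OpenPartialHomeomorph.univBall_target c hd
  have hinj : InjOn φ univ := by rw [← hs]; exact φ.injOn
  have hc : ContinuousOn φ univ := by rw [← hs]; exact φ.continuousOn
  have hcount : (φ ⁻¹' Q).Countable := hQ.preimage_of_injOn (hinj.mono (subset_univ _))
  have hconn : IsPreconnected (φ ⁻¹' Q)ᶜ :=
    (hcount.isConnected_compl_of_one_lt_rank (by simp)).isPreconnected
  have h : ball c d \ Q = φ '' (φ ⁻¹' Q)ᶜ := by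
    ext y
    constructor
    · rintro ⟨h1, h2⟩
      rw [← ht] at h1
      refine ⟨φ.symm y, fun h3 => h2 ?_, φ.right_inv h1⟩
      have h4 : φ (φ.symm y) ∈ Q := h3
      rwa [φ.right_inv h1] at h4
    · rintro ⟨x, hx, rfl⟩
      refine ⟨?_, hx⟩
      rw [← ht]
      exact φ.map_source (by rw [hs]; exact mem_univ x)
  rw [h]
  exact hconn.image _ (hc.mono (subset_univ _))

private theorem Opc_fibre {F : ℂ → ℂ} {U Z : Set ℂ} (hZ : Z.Countable)
    (hloc : ∀ z ∈ U, z ∉ Z → ∃ N ∈ 𝓝 z, InjOn F N) (w : ℂ) : {z ∈ U | F z = w}.Countable := by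
  classical
  have hloc' : ∀ z, z ∈ U ∧ z ∉ Z → ∃ N ∈ 𝓝 z, InjOn F N := fun z hz => hloc z hz.1 hz.2
  choose! N hN hinj using hloc'
  obtain ⟨t, ht, htc, hcov⟩ := TopologicalSpace.countable_cover_nhdsWithin
    (f := N) (s := {z ∈ U | F z = w} \ Z)
    (fun x hx => mem_nhdsWithin_of_mem_nhds (hN x ⟨hx.1.1, hx.2⟩))
  refine (hZ.union htc).mono fun z hz => ?_
  by_cases hzZ : z ∈ Z
  · exact Or.inl hzZ
  · right
    obtain ⟨x, hx, hzx⟩ := mem_iUnion₂.1 (hcov ⟨hz, hzZ⟩)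
    have hxU := (ht hx).1.1
    have hxZ := (ht hx).2
    have h1 : F x = w := (ht hx).1.2
    have h2 : F z = w := hz.2
    have h3 : z = x := hinj x ⟨hxU, hxZ⟩ hzx (mem_of_mem_nhds (hN x ⟨hxU, hxZ⟩)) (h2.trans h1.symm)
    rw [h3]
    exact hx

theorem open_loc {F : ℂ → ℂ} {U P Z : Set ℂ} (hU : IsOpen U) (hF : ContinuousOn F U) (hP : P.Countable)
    (hPc : IsClosed P) (hZ : Z.Countable) (hloc : ∀ z ∈ U, z ∉ Z → ∃ N ∈ 𝓝 z, InjOn F N)
    (hopen : ∀ z ∈ U, z ∉ P → ∀ N ∈ 𝓝 z, F '' N ∈ 𝓝 (F z)) :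
    ∀ z ∈ U, ∀ N ∈ 𝓝 z, F '' N ∈ 𝓝 (F z) := by
  intro p hp N hN
  have hS : {z ∈ U | F z = F p}.Countable := Opc_fibre hZ hloc (F p)
  -- the radius
  obtain ⟨ε₁, hε₁, h1⟩ := Metric.mem_nhds_iff.1 hN
  obtain ⟨ε₂, hε₂, h2⟩ := Metric.mem_nhds_iff.1 (hU.mem_nhds hp)
  obtain ⟨r, hr1, hr2⟩ := ((hS.image fun z => dist z p).dense_compl ℝ).exists_between
    (lt_min hε₁ hε₂)
  have hr0 : 0 < r := hr2.1
  have hcb1 : closedBall p r ⊆ N := fun z hz =>
    h1 (mem_ball.2 ((mem_closedBall.1 hz).trans_lt (hr2.2.trans_le (min_le_left _ _))))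
  have hcb2 : closedBall p r ⊆ U := fun z hz =>
    h2 (mem_ball.2 ((mem_closedBall.1 hz).trans_lt (hr2.2.trans_le (min_le_right _ _))))
  have hsp : ∀ z ∈ sphere p r, F z ≠ F p := by
    intro z hz h
    exact hr1 ⟨z, ⟨hcb2 (sphere_subset_closedBall hz), h⟩, mem_sphere.1 hz⟩
  -- the distance
  have hcpt : IsCompact (F '' sphere p r) :=
    (isCompact_sphere p r).image_of_continuousOn (hF.mono (sphere_subset_closedBall.trans hcb2))
  have hdn : (F '' sphere p r)ᶜ ∈ 𝓝 (F p) := by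
    refine hcpt.isClosed.isOpen_compl.mem_nhds ?_
    rintro ⟨z, hz, h⟩
    exact hsp z hz h
  obtain ⟨d, hd0, hd⟩ := Metric.mem_nhds_iff.1 hdn
  obtain ⟨A, hA⟩ : ∃ A, A = F '' (ball p r \ P) := ⟨_, rfl⟩
  obtain ⟨B, hB⟩ : ∃ B, B = F '' closedBall p r := ⟨_, rfl⟩
  obtain ⟨Q, hQ⟩ : ∃ Q, Q = F '' P := ⟨_, rfl⟩
  have hQc : Q.Countable := by rw [hQ]; exact hP.image F
  have hAo : IsOpen A := by
    rw [isOpen_iff_mem_nhds, hA]
    rintro _ ⟨z, hz, rfl⟩
    refine hopen z (hcb2 (ball_subset_closedBall hz.1)) hz.2 _ ?_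
    exact (isOpen_ball.sdiff hPc).mem_nhds hz
  have hBc : IsClosed B := by
    rw [hB]
    exact ((isCompact_closedBall p r).image_of_continuousOn (hF.mono hcb2)).isClosed
  have hAB : A ⊆ B := by
    rw [hA, hB]
    exact image_mono (sdiff_subset.trans ball_subset_closedBall)
  have hcov : ball (F p) d \ Q ⊆ A ∪ Bᶜ := by
    rintro y ⟨hy1, hy2⟩
    by_cases hyB : y ∈ B
    · left
      rw [hB] at hyB
      obtain ⟨z, hz, rfl⟩ := hyB
      rw [hA]
      refine ⟨z, ⟨?_, fun h => hy2 ?_⟩, rfl⟩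
      · rw [mem_ball]
        refine lt_of_le_of_ne (mem_closedBall.1 hz) fun h => ?_
        exact hd hy1 ⟨z, mem_sphere.2 h, rfl⟩
      · rw [hQ]
        exact mem_image_of_mem F h
    · exact Or.inr hyB
  have hne : ((ball (F p) d \ Q) ∩ A).Nonempty := by
    have hO : ∃ ρ > 0, ball p ρ ⊆ ball p r ∧ ∀ z ∈ ball p ρ, F z ∈ ball (F p) d := by
      have hc : ContinuousAt F p := hF.continuousAt (hU.mem_nhds hp)
      have h3 : F ⁻¹' ball (F p) d ∩ ball p r ∈ 𝓝 p :=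
        Filter.inter_mem (hc (ball_mem_nhds _ hd0)) (ball_mem_nhds _ hr0)
      obtain ⟨ρ, hρ, h4⟩ := Metric.mem_nhds_iff.1 h3
      exact ⟨ρ, hρ, fun z hz => (h4 hz).2, fun z hz => (h4 hz).1⟩
    obtain ⟨ρ, hρ, h4, h5⟩ := hO
    obtain ⟨x, hx1, hx2⟩ := (hP.dense_compl ℝ).exists_mem_open isOpen_ball
      ⟨p, mem_ball_self hρ⟩
    have h6 : F '' (ball p ρ \ P) ∈ 𝓝 (F x) := by
      refine hopen x (hcb2 (ball_subset_closedBall (h4 hx2))) hx1 _ ?_
      exact (isOpen_ball.sdiff hPc).mem_nhds ⟨hx2, hx1⟩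
    obtain ⟨y, hy1, hy2⟩ := (hQc.dense_compl ℝ).inter_nhds_nonempty h6
    obtain ⟨z, hz, rfl⟩ := hy2
    refine ⟨F z, ⟨h5 z hz.1, hy1⟩, ?_⟩
    rw [hA]
    exact ⟨z, ⟨h4 hz.1, hz.2⟩, rfl⟩
  have hfin : ball (F p) d \ Q ⊆ A :=
    (Opc_ball (F p) hd0 hQc).subset_left_of_subset_union hAo hBc.isOpen_compl
      (disjoint_compl_right.mono_left hAB) hcov hne
  have hall : ball (F p) d ⊆ B := by
    intro y hy
    by_contra hyB
    obtain ⟨q, hq1, hq2⟩ := (hQc.dense_compl ℝ).exists_mem_open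
      (isOpen_ball.inter hBc.isOpen_compl) ⟨y, hy, hyB⟩
    exact hq2.2 (hAB (hfin ⟨hq2.1, hq1⟩))
  refine Filter.mem_of_superset (ball_mem_nhds (F p) hd0) fun y hy => ?_
  have h3 := hall hy
  rw [hB] at h3
  exact image_mono hcb1 h3

end Pool.Agent.H.MP_4bdd60_an.CT
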