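import Pool.Agent.H.MP_4bdd60_an.F4a
import Pool.Agent.H.MP_4bdd60_an.LP.Lim3
import Pool.Agent.H.MP_4bdd60_an.CT.Base
import Pool.Agent.H.MP_4bdd60_an.CT.Opc

/-!
# MP_4bdd60_an, countable intersection: the limit at an isolated exceptional point
-/

set_option autoImplicit false

open Set Filter Topology Metric MeasureTheory
open scoped ENNReal Real

namespace Pool.Agent.H.MP_4bdd60_an.CT

open UN LP

variable {K L : Set ℂ} {f : ℂ ≃ₜ ℂ} {k1 k2 : ℂ → ℂ}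

/-- A continuous primitive of the form on an open set is open. -/
theorem openC (hK : IsClosed K) (hL : IsClosed L) (hP : (K ∩ L).Countable) (hF : Form K L f k1 k2)
    (hnK : ∀ z, z ∉ K → ¬ ∀ᶠ y in 𝓝 z, k1 y = 0)
    (hnL : ∀ z, z ∉ L → ¬ ∀ᶠ y in 𝓝 (f z), k2 y = 0) {U : Set ℂ} (hU : IsOpen U) {G : ℂ → ℂ}
    (hG : ∀ z ∈ U, LPr K L f k1 k2 G z) :
    (∃ Z : Set ℂ, Z.Countable ∧ ∀ z ∈ U, z ∉ Z → ∃ N ∈ 𝓝 z, InjOn G N) ∧
      ∀ z ∈ U, ∀ N ∈ 𝓝 z, G '' N ∈ 𝓝 (G z) := by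
  have hfL : IsOpen (f '' Lᶜ) := f.isOpenMap _ hL.isOpen_compl
  set Z1 : Set ℂ := {z | z ∈ Kᶜ ∧ k1 z = 0} with hZ1
  set Z2 : Set ℂ := {w | w ∈ f '' Lᶜ ∧ k2 w = 0} with hZ2
  have cZ1 : Z1.Countable := countable_zeros hK.isOpen_compl hF.hol1 (fun z hz => hnK z hz)
  have cZ2 : Z2.Countable := countable_zeros hfL hF.hol2
    (by rintro _ ⟨z', hz', rfl⟩; exact hnL z' hz')
  set Z : Set ℂ := Z1 ∪ f.symm '' Z2 ∪ (K ∩ L) with hZ
  have cZ : Z.Countable := (cZ1.union (cZ2.image _)).union hP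
  have hloc : ∀ z ∈ U, z ∉ Z → ∃ N ∈ 𝓝 z, InjOn G N := by
    intro z hzU hz
    simp only [hZ, mem_union, not_or] at hz
    obtain ⟨⟨hz1, hz2⟩, hz3⟩ := hz
    by_cases hzK : z ∈ K
    · have hzL : z ∉ L := fun h => hz3 ⟨hzK, h⟩
      have hk : k2 (f z) ≠ 0 := fun e => hz2 ⟨f z, ⟨⟨z, hzL, rfl⟩, e⟩, by simp⟩
      have hfU : IsOpen (f '' (U ∩ Lᶜ)) := f.isOpenMap _ (hU.inter hL.isOpen_compl)
      obtain ⟨N, hN, hinj⟩ := inj_at (F := fun w => G (f.symm w)) (k := k2) hfU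
        (by rintro _ ⟨z', hz', rfl⟩; exact ((hG z' hz'.1).2 fun h => hz'.2 h.2).2 hz'.2) ⟨z, ⟨hzU, hzL⟩, rfl⟩ hk
      refine ⟨f ⁻¹' N, f.continuous.continuousAt.preimage_mem_nhds hN, ?_⟩
      intro x hx y hy e
      have : f x = f y := hinj hx hy (by simpa using e)
      exact f.injective this
    · have hk : k1 z ≠ 0 := fun e => hz1 ⟨hzK, e⟩
      exact inj_at (hU.inter hK.isOpen_compl) (fun z hz => ((hG z hz.1).2 fun h => hz.2 h.1).1 hz.2)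
        ⟨hzU, hzK⟩ hk
  refine ⟨⟨Z, cZ, hloc⟩, open_loc hU (fun z hz => (hG z hz).1.continuousWithinAt) hP (hK.inter hL) cZ hloc ?_⟩
  intro z hz hzP
  refine open_pr hK hL hnK hnL hzP ?_
  filter_upwards [hU.mem_nhds hz, (hK.inter hL).isOpen_compl.mem_nhds hzP] with w h1 h2
  exact (hG w h1).2 h2

theorem limC (hK : IsClosed K) (hL : IsClosed L) (hP : (K ∩ L).Countable) (hF : Form K L f k1 k2)
    (hnK : ∀ z, z ∉ K → ¬ ∀ᶠ y in 𝓝 z, k1 y = 0)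
    (hnL : ∀ z, z ∉ L → ¬ ∀ᶠ y in 𝓝 (f z), k2 y = 0) {p : ℂ} {R : ℝ} (hR : 0 < R)
    (hg : Loops (K ∪ L) p) {G : ℂ → ℂ}
    (hG : ∀ z ∈ ball p R, z ≠ p → LPr K L f k1 k2 G z) : ∃ A : ℂ, Tendsto G (𝓝[≠] p) (𝓝 A) := by
  have hcG : ContinuousOn G (ball p R \ {p}) := fun z hz => (hG z hz.1 hz.2).1.continuousWithinAt
  have hop := (openC hK hL hP hF hnK hnL (isOpen_ball.sdiff isClosed_singleton)
    (fun z (hz : z ∈ ball p R \ {p}) => hG z hz.1 hz.2)).2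
  refine ext_at2 (U0 := ball p R) isOpen_ball (mem_ball_self hR) hcG hop ?_
  intro ε hε U hU
  obtain ⟨η, hη, hηU⟩ := Metric.mem_nhds_iff.1 hU
  obtain ⟨c, c', T, N, hc, hT, hcp, hcd, hNo, hpN, hNδ, hNf, hci⟩ := loop_set (δ := min η R) hK
    (subset_union_left : K ⊆ K ∪ L) hF.hol1.continuousOn hF.fin hg (lt_min hη hR) hε
  have hcR : ∀ t ∈ Icc (0 : ℝ) 1, c t ∈ ball p R \ {p} := fun t ht =>
    ⟨ball_subset_ball (min_le_right _ _) (hcp t ht).1, (hcp t ht).2⟩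
  have hvar := var_le (h := fun t => G (c t)) (h' := fun t => k1 (c t) * c' t) hε.le
    (hcG.comp hc hcR) hT (fun t ht => by
      have h1 := hcR t (Ioo_subset_Icc_self ht.1)
      have h3 : c t ∉ K := fun h => (hcd t ht).1 (Or.inl h)
      have h2 := ((hG (c t) h1.1 h1.2).2 fun h => h3 h.1).1 h3
      exact h2.comp t (hcd t ht).2) hci
  refine ⟨N, G (c 0), hNo, hpN, hNδ.trans ((ball_subset_ball (min_le_left _ _)).trans hηU), ?_⟩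
  intro z hz
  obtain ⟨t, ht, rfl⟩ := hNf hz
  exact hvar t ht 0 (left_mem_Icc.2 zero_le_one)

end Pool.Agent.H.MP_4bdd60_an.CT
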