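import Pool.Agent.H.MP_4bdd60_an.LP.Mono
import Pool.Agent.H.MP_4bdd60_an.CT.Base

/-!
# MP_4bdd60_an, countable intersection: a primitive on a punctured disc

PROOF. Copy of LP/Mono.lean (`mono`), with `LPr` and `uniq` in place of `IsPr` and `loc_unique`, and the functions given by `hW` in place of
those of `loc_exists`. The derivatives are only used off `K ∪ L`, where `LPr` gives `IsPr`.
-/

set_option autoImplicit false

open Set Filter Topology Metric MeasureTheory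
open scoped ENNReal Real

namespace Pool.Agent.H.MP_4bdd60_an.CT

open UN LP

variable {K L : Set ℂ} {f : ℂ ≃ₜ ℂ} {k1 k2 : ℂ → ℂ}

/-- The argument which excludes a monodromy. -/
private theorem Monoc_zero (hK : IsClosed K) (hk : ContinuousOn k1 Kᶜ)
    (hfin : ∀ R : ℝ, ∫⁻ z in Kᶜ ∩ ball 0 R, ‖k1 z‖ₑ ^ 2 < ∞)
    {p : ℂ} {R : ℝ} (hR : 0 < R) (hg : Loops (K ∪ L) p)
    {Ψ F : ℂ → ℂ} (hΨc : Continuous Ψ) (hFc : Continuous F) (hΨr : range Ψ = ball p R \ {p})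
    {T m c0 : ℂ} (hT : T = 2 * π * Complex.I) (hΨp : ∀ ζ : ℂ, Ψ (ζ + T) = Ψ ζ)
    (hΨs : ∀ r : ℝ, 0 < r → r < R → ∃ s : ℝ, ∀ θ : ℝ, Ψ (s + θ * Complex.I) = circleMap p r θ)
    (hm : ∀ ζ, F (ζ + T) = F ζ + m) (hc0 : c0 * m = T) {E : ℂ → ℂ}
    (hE : ∀ ζ, E (Ψ ζ) = Complex.exp (c0 * F ζ)) (hEc : ContinuousOn E (ball p R \ {p}))
    (hEd : ∀ z ∈ ball p R, z ≠ p → z ∉ K → HasDerivAt E (E z * (c0 * k1 z)) z) : False := by
  have hT0 : T ≠ 0 := by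
    rw [hT]
    exact Complex.two_pi_I_ne_zero
  have hE0 : ∀ z ∈ ball p R, z ≠ p → E z ≠ 0 := by
    intro z hz hzp
    have h1 : z ∈ range Ψ := by
      rw [hΨr]
      exact ⟨hz, hzp⟩
    obtain ⟨ζ, rfl⟩ := h1
    rw [hE]
    exact Complex.exp_ne_zero _
  have hc00 : 0 < ‖c0‖ + 1 := by positivity
  obtain ⟨c, c', T', N, hc, hT', hcb, hTd, hN1, hN2, hN3, hN4, hlen⟩ :=
    loop_set (k := k1) (K := K) (Γ := K ∪ L) (p := p) hK subset_union_left hk hfin hg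
      (δ := R / 2) (ε := 1 / (4 * (‖c0‖ + 1))) (by linarith) (by positivity)
  have hsub : ball p (R / 2) ⊆ ball p R := ball_subset_ball (by linarith)
  have hcR : ∀ t ∈ Icc (0 : ℝ) 1, c t ∈ ball p R \ {p} := fun t ht =>
    ⟨hsub (hcb t ht).1, (hcb t ht).2⟩
  have hvar := var_exp (e := fun t => E (c t)) (κ := fun t => c0 * (k1 (c t) * c' t)) (T := T')
    (ε := 1 / 4) (by norm_num) (hEc.comp hc fun t ht => hcR t ht)
    (fun t ht => hE0 _ (hcR t ht).1 (hcR t ht).2) hT' (by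
      intro t ht
      have ht1 : t ∈ Icc (0 : ℝ) 1 := Ioo_subset_Icc_self ht.1
      obtain ⟨h1, h2⟩ := hTd t ht
      have h3 := hEd (c t) (hcR t ht1).1 (hcR t ht1).2 (fun h => h1 (Or.inl h))
      have h4 := h3.comp t h2
      have h5 : E (c t) * (c0 * k1 (c t)) * c' t = c0 * (k1 (c t) * c' t) * E (c t) := by ring
      rw [h5] at h4
      exact h4) (by
      have h1 : ∀ t : ℝ, ‖c0 * (k1 (c t) * c' t)‖ₑ = ‖c0‖ₑ * ‖k1 (c t) * c' t‖ₑ := fun t =>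
        enorm_mul _ _
      rw [lintegral_congr h1, lintegral_const_mul' _ _ enorm_ne_top]
      calc ‖c0‖ₑ * ∫⁻ t in Ioo (0 : ℝ) 1, ‖k1 (c t) * c' t‖ₑ
          ≤ ‖c0‖ₑ * ENNReal.ofReal (1 / (4 * (‖c0‖ + 1))) := mul_le_mul_right hlen _
        _ = ENNReal.ofReal (‖c0‖ * (1 / (4 * (‖c0‖ + 1)))) := by
            rw [ENNReal.ofReal_mul (norm_nonneg _), ofReal_norm]
        _ ≤ ENNReal.ofReal (1 / 4) := by
            apply ENNReal.ofReal_le_ofReal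
            rw [mul_one_div, div_le_div_iff₀ (by positivity) (by norm_num)]
            linarith)
  have hs : ∀ z ∈ closure N \ N, ∀ w ∈ closure N \ N, ‖E z - E w‖ < ‖E w‖ := by
    intro z hz w hw
    obtain ⟨s, hs, rfl⟩ := hN4 hz
    obtain ⟨t, ht, rfl⟩ := hN4 hw
    obtain ⟨u, hu, he⟩ := hvar s hs t ht
    have he' : E (c s) = E (c t) * Complex.exp u := he
    have h1 : E (c s) - E (c t) = E (c t) * (Complex.exp u - 1) := by
      rw [he']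
      ring
    have h2 : ‖Complex.exp u - 1‖ ≤ 2 * ‖u‖ := Complex.norm_exp_sub_one_le (by linarith)
    have h3 : 0 < ‖E (c t)‖ := norm_pos_iff.2 (hE0 _ (hcR t ht).1 (hcR t ht).2)
    rw [h1, norm_mul]
    nlinarith
  obtain ⟨Lg, hLc, hLe⟩ := fill_log hR hEc hE0 hN1 hN2 (hN3.trans hsub) hs
  obtain ⟨s0, hs0⟩ := hΨs (R / 2) (by linarith) (by linarith)
  have hΨR : ∀ ζ, Ψ ζ ∈ ball p R := by
    intro ζ
    have h1 : Ψ ζ ∈ ball p R \ {p} := hΨr ▸ mem_range_self ζ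
    exact h1.1
  have hline : ∀ ζ : ℂ, ζ ∈ {ζ : ℂ | ζ.re = s0} → Ψ ζ ∉ N := by
    intro ζ hζ hN
    have h1 : ζ = (s0 : ℂ) + (ζ.im : ℝ) * Complex.I := by
      have h2 : ζ.re = s0 := hζ
      rw [← h2]
      exact (Complex.re_add_im ζ).symm
    have h2 : Ψ ζ ∈ ball p (R / 2) := hN3 (subset_closure hN)
    rw [h1, hs0] at h2
    rw [mem_ball, dist_eq_norm, circleMap_sub_center, norm_circleMap_zero, abs_of_pos (by linarith)] at h2
    exact lt_irrefl _ h2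
  have hA : IsPreconnected {ζ : ℂ | ζ.re = s0} := by
    apply Convex.isPreconnected
    intro x hx y hy a b _ _ hab
    have hx' : x.re = s0 := hx
    have hy' : y.re = s0 := hy
    show (a • x + b • y).re = s0
    rw [Complex.add_re, Complex.smul_re, Complex.smul_re, hx', hy', smul_eq_mul, smul_eq_mul,
      ← add_mul, hab, one_mul]
  have hu := CI.const_int hA (u := fun ζ => Lg (Ψ ζ) - c0 * F ζ)
    ((hLc.comp hΨc.continuousOn fun ζ _ => hΨR ζ).sub (continuousOn_const.mul hFc.continuousOn))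
    (by
      intro ζ hζ
      show Complex.exp (Lg (Ψ ζ) - c0 * F ζ) = 1
      rw [Complex.exp_sub, hLe _ (hΨR ζ) (hline ζ hζ), hE, div_self (Complex.exp_ne_zero _)])
    (p := (s0 : ℂ)) (q := (s0 : ℂ) + T) (by simp) (by
      show ((s0 : ℂ) + T).re = s0
      rw [hT]
      simp)
  have hu' : Lg (Ψ (s0 : ℂ)) - c0 * F (s0 : ℂ) = Lg (Ψ ((s0 : ℂ) + T)) - c0 * F ((s0 : ℂ) + T) := hu
  rw [hΨp, hm] at hu'
  apply hT0
  rw [← hc0]
  linear_combination hu'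

theorem monoC (hK : IsClosed K) (hL : IsClosed L) (hP : (K ∩ L).Countable) (hF : Form K L f k1 k2) {p : ℂ} {R : ℝ}
    (hR : 0 < R) (hW : ∀ z ∈ ball p R, z ≠ p → ∃ G : ℂ → ℂ, ∀ᶠ w in 𝓝 z, LPr K L f k1 k2 G w)
    (hg : Loops (K ∪ L) p) :
    ∃ G : ℂ → ℂ, ∀ z ∈ ball p R, z ≠ p → LPr K L f k1 k2 G z := by
  obtain ⟨Ψ, hΨc, hΨo, hΨr, hΨi, hΨp, hΨs⟩ := exists_psi (p := p) hR
  have hmem : ∀ ζ, Ψ ζ ∈ ball p R \ {p} := fun ζ => hΨr ▸ mem_range_self ζ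
  have hex : ∀ ζ, ∃ G : ℂ → ℂ, ∀ᶠ w in 𝓝 (Ψ ζ), LPr K L f k1 k2 G w :=
    fun ζ => hW _ (hmem ζ).1 (hmem ζ).2
  choose G0 hG0 using hex
  obtain ⟨F, hFF⟩ := glob (S := fun ζ v => G0 ζ (Ψ v)) (by
    intro ζ
    have h1 : ∀ᶠ ζ' in 𝓝 ζ, ∀ᶠ w in 𝓝 (Ψ ζ'), LPr K L f k1 k2 (G0 ζ) w :=
      hΨc.continuousAt.eventually (eventually_eventually_nhds.2 (hG0 ζ))
    filter_upwards [h1] with ζ' h2
    obtain ⟨c, hc⟩ := uniq hK hL hP h2 (hG0 ζ')
    exact ⟨c, hΨc.continuousAt.eventually hc⟩)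
  have hFc : Continuous F := by
    rw [continuous_iff_continuousAt]
    intro ζ
    obtain ⟨c, hc⟩ := hFF ζ
    have h1 : ContinuousAt (G0 ζ) (Ψ ζ) := (hG0 ζ).self_of_nhds.1
    have h2 : ContinuousAt (fun v => G0 ζ (Ψ v) + c) ζ :=
      (ContinuousAt.comp (f := Ψ) (g := G0 ζ) h1 hΨc.continuousAt).add continuousAt_const
    exact h2.congr (hc.mono fun w hw => hw.symm)
  obtain ⟨T, hT⟩ : ∃ T : ℂ, T = 2 * π * Complex.I := ⟨_, rfl⟩
  rw [← hT] at hΨp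
  have hT0 : T ≠ 0 := by
    rw [hT]
    exact Complex.two_pi_I_ne_zero
  have hloc : IsLocallyConstant (fun ζ => F (ζ + T) - F ζ) := by
    rw [IsLocallyConstant.iff_eventually_eq]
    intro ζ
    obtain ⟨c, hc⟩ := hFF ζ
    obtain ⟨c', hc'⟩ := hFF (ζ + T)
    have h0 : ∀ᶠ w in 𝓝 (Ψ ζ), LPr K L f k1 k2 (G0 (ζ + T)) w := by
      have := hG0 (ζ + T)
      rwa [hΨp ζ] at this
    obtain ⟨e, he⟩ := uniq hK hL hP h0 (hG0 ζ)
    have h1 : ∀ᶠ w in 𝓝 ζ, G0 (ζ + T) (Ψ w) = G0 ζ (Ψ w) + e := hΨc.continuousAt.eventually he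
    have h2 : ∀ᶠ w in 𝓝 ζ, F (w + T) = G0 (ζ + T) (Ψ (w + T)) + c' := by
      have h3 : ContinuousAt (fun w : ℂ => w + T) ζ := (continuous_id.add continuous_const).continuousAt
      exact h3.eventually hc'
    have h4 : ∀ᶠ w in 𝓝 ζ, F (w + T) - F w = e + c' - c := by
      filter_upwards [h1, h2, hc] with w w1 w2 w3
      rw [w2, w3, hΨp w, w1]
      ring
    have h5 := h4.self_of_nhds
    filter_upwards [h4] with w hw
    rw [hw, h5]
  obtain ⟨m, hm⟩ : ∃ m : ℂ, ∀ ζ, F (ζ + T) = F ζ + m := by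
    refine ⟨F (0 + T) - F 0, fun ζ => ?_⟩
    have := hloc.apply_eq_of_preconnectedSpace ζ 0
    rw [← this]
    ring
  -- the values at the other points of a fibre
  have hint : ∀ (ζ : ℂ) (n : ℤ), F (ζ + n * T) = F ζ + n * m := by
    intro ζ n
    have hper : Function.Periodic (fun ζ => F ζ - m / T * ζ) T := by
      intro ζ
      show F (ζ + T) - m / T * (ζ + T) = F ζ - m / T * ζ
      rw [hm]
      field_simp
      ring
    have h1 : F (ζ + n * T) - m / T * (ζ + n * T) = F ζ - m / T * ζ := hper.int_mul n ζ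
    have h2 : m / T * (n * T) = n * m := by
      field_simp
    linear_combination h1 + h2
  have hinv : ∀ ζ, ∃ n : ℤ, F (Function.invFun Ψ (Ψ ζ)) = F ζ + n * m := by
    intro ζ
    obtain ⟨n, hn⟩ := hΨi _ _ (Function.invFun_eq (f := Ψ) ⟨ζ, rfl⟩)
    rw [← hT] at hn
    exact ⟨n, by rw [hn, hint]⟩
  have hm0 : m = 0 := by
    by_contra hne
    obtain ⟨c0, hc0⟩ : ∃ c0 : ℂ, c0 * m = T := ⟨T / m, by field_simp⟩
    obtain ⟨E, hEdef⟩ : ∃ E : ℂ → ℂ, ∀ z, E z = Complex.exp (c0 * F (Function.invFun Ψ z)) :=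
      ⟨_, fun _ => rfl⟩
    have hE : ∀ ζ, E (Ψ ζ) = Complex.exp (c0 * F ζ) := by
      intro ζ
      obtain ⟨n, hn⟩ := hinv ζ
      rw [hEdef, hn]
      have h1 : c0 * (F ζ + n * m) = c0 * F ζ + n * T := by
        rw [← hc0]
        ring
      rw [h1, Complex.exp_add, hT, Complex.exp_int_mul_two_pi_mul_I, mul_one]
    have hEloc : ∀ ζ, ∃ e : ℂ, ∀ᶠ v in 𝓝 (Ψ ζ), E v = Complex.exp (c0 * (G0 ζ v + e)) := by
      intro ζ
      obtain ⟨e, he⟩ := hFF ζ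
      refine ⟨e, (hΨo.nhds_le ζ) ?_⟩
      show ∀ᶠ w in 𝓝 ζ, E (Ψ w) = Complex.exp (c0 * (G0 ζ (Ψ w) + e))
      filter_upwards [he] with w hw
      rw [hE, hw]
    have hEc : ContinuousOn E (ball p R \ {p}) := by
      intro z hz
      obtain ⟨ζ, rfl⟩ : z ∈ range Ψ := by
        rw [hΨr]
        exact hz
      obtain ⟨e, he⟩ := hEloc ζ
      have h1 : ContinuousAt (G0 ζ) (Ψ ζ) := (hG0 ζ).self_of_nhds.1
      have h2 : ContinuousAt (fun v => Complex.exp (c0 * (G0 ζ v + e))) (Ψ ζ) :=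
        (continuousAt_const.mul (h1.add continuousAt_const)).cexp
      exact (h2.congr (he.mono fun w hw => hw.symm)).continuousWithinAt
    have hEd : ∀ z ∈ ball p R, z ≠ p → z ∉ K → HasDerivAt E (E z * (c0 * k1 z)) z := by
      intro z hz hzp hzK
      obtain ⟨ζ, rfl⟩ : z ∈ range Ψ := by
        rw [hΨr]
        exact ⟨hz, hzp⟩
      obtain ⟨e, he⟩ := hEloc ζ
      have h1 : HasDerivAt (G0 ζ) (k1 (Ψ ζ)) (Ψ ζ) :=
        ((hG0 ζ).self_of_nhds.2 fun h => hzK h.1).1 hzK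
      have h2 := ((h1.add_const e).const_mul c0).cexp
      have h3 := h2.congr_of_eventuallyEq he
      rw [← he.self_of_nhds] at h3
      exact h3
    exact Monoc_zero hK hF.hol1.continuousOn hF.fin hR hg hΨc hFc hΨr hT hΨp hΨs hm hc0 hE hEc hEd
  have hG : ∀ ζ, F (Function.invFun Ψ (Ψ ζ)) = F ζ := by
    intro ζ
    obtain ⟨n, hn⟩ := hinv ζ
    rw [hn, hm0, mul_zero, add_zero]
  refine ⟨fun z => F (Function.invFun Ψ z), ?_⟩
  intro z hz hzp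
  have hz' : z ∈ range Ψ := by
    rw [hΨr]
    exact ⟨hz, hzp⟩
  obtain ⟨ζ, rfl⟩ := hz'
  obtain ⟨c, hc⟩ := hFF ζ
  have h1 : ∀ᶠ v in 𝓝 (Ψ ζ), F (Function.invFun Ψ v) = G0 ζ v + c := by
    refine (hΨo.nhds_le ζ) ?_
    show ∀ᶠ w in 𝓝 ζ, F (Function.invFun Ψ (Ψ w)) = G0 ζ (Ψ w) + c
    filter_upwards [hc] with w hw
    rw [hG w, hw]
  exact LPr.congr ((hG0 ζ).self_of_nhds.add_const c) h1

end Pool.Agent.H.MP_4bdd60_an.CT
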