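import Pool.Agent.H.MP_4bdd60_an.UN.NV

/-!
# MP_4bdd60_an, countable intersection: the form does not vanish near a point

PROOF. Copy of UN/NV.lean (`nonvan`): finiteness of `K ∩ L` is used there only for the connectedness of the complement, which holds
for a countable set (`Set.Countable.isConnected_compl_of_one_lt_rank`).
-/

set_option autoImplicit false

open Set Filter Topology Metric MeasureTheory
open scoped ENNReal Real

namespace Pool.Agent.H.MP_4bdd60_an.CT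

private theorem NVc_ball {k : ℂ → ℂ} {c : ℂ} {r : ℝ} (hk : DifferentiableOn ℂ k (ball c r)) {v : ℂ}
    (hv : v ∈ ball c r) (h0 : ∀ᶠ y in 𝓝 v, k y = 0) (hr : 0 < r) : ∀ᶠ y in 𝓝 c, k y = 0 := by
  have h1 : AnalyticOnNhd ℂ k (ball c r) := hk.analyticOnNhd isOpen_ball
  have h2 := h1.eqOn_zero_of_preconnected_of_eventuallyEq_zero
    (convex_ball c r).isPreconnected hv h0
  filter_upwards [ball_mem_nhds c hr] with y hy
  exact h2 hy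

private theorem NVc_iff {K L : Set ℂ} {f : ℂ ≃ₜ ℂ} {k1 k2 : ℂ → ℂ} (hK : IsClosed K)
    (hL : IsClosed L) (hF : Form K L f k1 k2) (hf : DifferentiableOn ℂ f (K ∪ L)ᶜ) {z : ℂ}
    (hzK : z ∉ K) (hzL : z ∉ L) :
    (∀ᶠ y in 𝓝 z, k1 y = 0) ↔ ∀ᶠ y in 𝓝 (f z), k2 y = 0 := by
  have hU : IsOpen (K ∪ L)ᶜ := (hK.union hL).isOpen_compl
  have hd := (symm_hol f hU hf).1
  have hz : z ∈ (K ∪ L)ᶜ := fun h => h.elim hzK hzL
  rw [← f.map_nhds_eq z, eventually_map]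
  refine eventually_congr ?_
  filter_upwards [hU.mem_nhds hz] with y hy
  have hyK : y ∉ K := fun h => hy (Or.inl h)
  have hyL : y ∉ L := fun h => hy (Or.inr h)
  rw [hF.rel y hyK hyL]
  exact ⟨fun h => (mul_eq_zero.1 h).resolve_right (hd y hy), fun h => by rw [h, zero_mul]⟩

private theorem NVc_empty {K L : Set ℂ} {f : ℂ ≃ₜ ℂ} {k1 k2 : ℂ → ℂ} (hK : IsClosed K)
    (hL : IsClosed L) (hP : (K ∩ L).Countable) (hF : Form K L f k1 k2)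
    (hf : DifferentiableOn ℂ f (K ∪ L)ᶜ) (z : ℂ) :
    ¬ ((z ∉ K ∧ ∀ᶠ y in 𝓝 z, k1 y = 0) ∨ (z ∉ L ∧ ∀ᶠ y in 𝓝 (f z), k2 y = 0)) := by
  intro hz
  obtain ⟨V, hV⟩ : ∃ V : Set ℂ, V = {z | (z ∉ K ∧ ∀ᶠ y in 𝓝 z, k1 y = 0) ∨
      (z ∉ L ∧ ∀ᶠ y in 𝓝 (f z), k2 y = 0)} := ⟨_, rfl⟩
  have hmV : ∀ v, v ∈ V ↔ (v ∉ K ∧ ∀ᶠ y in 𝓝 v, k1 y = 0) ∨
      (v ∉ L ∧ ∀ᶠ y in 𝓝 (f v), k2 y = 0) := fun v => by rw [hV]; rfl
  have hX : IsPreconnected (K ∩ L)ᶜ := by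
    refine (hP.isConnected_compl_of_one_lt_rank ?_).isPreconnected
    rw [Complex.rank_real_complex]
    exact Cardinal.one_lt_two
  have hVX : ∀ v ∈ V, v ∈ (K ∩ L)ᶜ := by
    intro v hv h
    rcases (hmV v).1 hv with h1 | h1
    · exact h1.1 h.1
    · exact h1.1 h.2
  have hVo : IsOpen V := by
    rw [isOpen_iff_mem_nhds]
    intro v hv
    rcases (hmV v).1 hv with ⟨h1, h2⟩ | ⟨h1, h2⟩
    · have h3 := eventually_eventually_nhds.2 h2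
      filter_upwards [h3, hK.isOpen_compl.mem_nhds h1] with y hy hyK
      exact (hmV y).2 (Or.inl ⟨hyK, hy⟩)
    · have h3 := (f.continuous.tendsto v).eventually (eventually_eventually_nhds.2 h2)
      filter_upwards [h3, hL.isOpen_compl.mem_nhds h1] with y hy hyL
      exact (hmV y).2 (Or.inr ⟨hyL, hy⟩)
  have hcl : closure V ∩ (K ∩ L)ᶜ ⊆ V := by
    rintro w ⟨hw, hwX⟩
    by_cases hwK : w ∈ K
    · have hwL : w ∉ L := fun h => hwX ⟨hwK, h⟩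
      have ho : IsOpen (f '' Lᶜ) := f.isOpenMap _ hL.isOpen_compl
      obtain ⟨r, hr, hb⟩ := Metric.isOpen_iff.1 ho (f w) ⟨w, hwL, rfl⟩
      have h1 : f ⁻¹' ball (f w) r ∈ 𝓝 w :=
        f.continuous.continuousAt.preimage_mem_nhds (ball_mem_nhds _ hr)
      obtain ⟨v, hv1, hv2⟩ := mem_closure_iff_nhds.1 hw _ h1
      have hvL : v ∉ L := by
        obtain ⟨v', hv', e⟩ := hb hv1
        rw [← f.injective e]
        exact hv'
      have h2 : ∀ᶠ y in 𝓝 (f v), k2 y = 0 := by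
        rcases (hmV v).1 hv2 with ⟨h3, h4⟩ | ⟨h3, h4⟩
        · exact (NVc_iff hK hL hF hf h3 hvL).1 h4
        · exact h4
      exact (hmV w).2 (Or.inr ⟨hwL, NVc_ball (hF.hol2.mono hb) hv1 h2 hr⟩)
    · obtain ⟨r, hr, hb⟩ := Metric.isOpen_iff.1 hK.isOpen_compl w hwK
      obtain ⟨v, hv1, hv2⟩ := mem_closure_iff_nhds.1 hw _ (ball_mem_nhds w hr)
      have hvK : v ∉ K := hb hv1
      have h2 : ∀ᶠ y in 𝓝 v, k1 y = 0 := by
        rcases (hmV v).1 hv2 with ⟨h3, h4⟩ | ⟨h3, h4⟩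
        · exact h4
        · exact (NVc_iff hK hL hF hf hvK h3).2 h4
      exact (hmV w).2 (Or.inl ⟨hwK, NVc_ball (hF.hol1.mono hb) hv1 h2 hr⟩)
  have hzV : z ∈ V := (hmV z).2 hz
  have hsub := hX.subset_of_closure_inter_subset hVo ⟨z, hVX z hzV, hzV⟩ hcl
  obtain ⟨C, R, hR, hinf⟩ := hF.inf
  obtain ⟨t, ht⟩ : ∃ t : ℝ, t = R + |C| + 1 := ⟨_, rfl⟩
  have hC := abs_nonneg C
  have ht1 : 1 ≤ t := by linarith
  have hn : ‖(t : ℂ)‖ = t := by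
    rw [Complex.norm_real, Real.norm_eq_abs, abs_of_nonneg (by linarith)]
  obtain ⟨g1, g2, g3⟩ := hinf (t : ℂ) (by rw [hn]; linarith)
  have h5 : (t : ℂ) ∈ V := hsub fun h => g1 h.1
  have h6 : ∀ᶠ y in 𝓝 (t : ℂ), k1 y = 0 := by
    rcases (hmV _).1 h5 with ⟨h3, h4⟩ | ⟨h3, h4⟩
    · exact h4
    · exact (NVc_iff hK hL hF hf g1 h3).2 h4
  rw [h6.self_of_nhds, zero_sub, norm_neg, norm_one, hn, le_div_iff₀ (by positivity)] at g3
  have h7 := le_abs_self C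
  nlinarith

theorem nonvanC {K L : Set ℂ} {f : ℂ ≃ₜ ℂ} {k1 k2 : ℂ → ℂ} (hK : IsClosed K) (hL : IsClosed L)
    (hP : (K ∩ L).Countable) (hF : Form K L f k1 k2) (hf : DifferentiableOn ℂ f (K ∪ L)ᶜ) :
    (∀ z, z ∉ K → ¬ ∀ᶠ y in 𝓝 z, k1 y = 0) ∧ (∀ z, z ∉ L → ¬ ∀ᶠ y in 𝓝 (f z), k2 y = 0) := by
  exact ⟨fun z hz h => NVc_empty hK hL hP hF hf z (Or.inl ⟨hz, h⟩),
    fun z hz h => NVc_empty hK hL hP hF hf z (Or.inr ⟨hz, h⟩)⟩

end Pool.Agent.H.MP_4bdd60_an.CT
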