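import Pool.Agent.H.MP_4bdd60_an.A10
import Pool.Agent.H.MP_4bdd60_an.F4
import Pool.Agent.H.MP_4bdd60_an.F4a
import Pool.Agent.H.MP_4bdd60_an.H1
import Pool.Agent.H.MP_4bdd60_an.I1
import Pool.Agent.H.MP_4bdd60_an.UN.Asy
import Pool.Agent.H.MP_4bdd60_an.CT.Monoc
import Pool.Agent.H.MP_4bdd60_an.CT.Limc
import Pool.Agent.H.MP_4bdd60_an.CT.NVc
import Pool.Agent.H.MP_4bdd60_an.CT.Iso

/-!
# MP_4bdd60_an, countable intersection: the theorem
-/

set_option autoImplicit false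

open Set Filter Topology Metric MeasureTheory
open scoped ENNReal Real

namespace Pool.Agent.H.MP_4bdd60_an.CT

open UN LP

variable {K L : Set ℂ} {f : ℂ ≃ₜ ℂ} {k1 k2 : ℂ → ℂ}

/-- The function with the given form as differential. -/
theorem exists_FC (hK : IsClosed K) (hL : IsClosed L) (hP : (K ∩ L).Countable)
    (hg : ∀ p ∈ K ∩ L, Loops (K ∪ L) p) (hf : DifferentiableOn ℂ f (K ∪ L)ᶜ) (hF : Form K L f k1 k2) :
    ∃ F : ℂ → ℂ, ∀ z, LPr K L f k1 k2 F z := by
  obtain ⟨hnK, hnL⟩ := nonvanC hK hL hP hF hf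
  set W : Set ℂ := {z | ∃ G : ℂ → ℂ, ∀ᶠ w in 𝓝 z, LPr K L f k1 k2 G w} with hW
  have hWo : IsOpen W := by
    rw [isOpen_iff_mem_nhds]
    rintro z ⟨G, hG⟩
    filter_upwards [hG.eventually_nhds] with z' hz'
    exact ⟨G, hz'⟩
  have hWP : (K ∩ L)ᶜ ⊆ W := by
    intro z hz
    obtain ⟨G, hG⟩ := loc_exists hK hL hF hf hz
    refine ⟨G, ?_⟩
    filter_upwards [hG, (hK.inter hL).isOpen_compl.mem_nhds hz] with w h1 h2
    exact ⟨h1.continuousAt h2, fun _ => h1⟩
  have hWu : ∀ z, z ∈ W := by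
    by_contra hcon
    push Not at hcon
    obtain ⟨z0, hz0⟩ := hcon
    have hc : (Wᶜ : Set ℂ).Countable := hP.mono fun z hz => by
      by_contra h
      exact hz (hWP h)
    obtain ⟨p, hpW, R, hR, hiso⟩ := exists_iso hWo.isClosed_compl ⟨z0, hz0⟩ hc
    have hpP : p ∈ K ∩ L := by
      by_contra h
      exact hpW (hWP h)
    obtain ⟨G, hG⟩ := monoC hK hL hP hF hR (fun z hz hzp => not_not.1 (hiso z hz hzp)) (hg p hpP)
    obtain ⟨A, hA⟩ := limC hK hL hP hF hnK hnL hR (hg p hpP) hG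
    refine hpW ⟨Function.update G p A, ?_⟩
    filter_upwards [ball_mem_nhds p hR] with w hw
    by_cases hwp : w = p
    · subst hwp
      refine ⟨?_, fun h => absurd hpP h⟩
      rw [continuousAt_iff_punctured_nhds, Function.update_self]
      refine hA.congr' ?_
      filter_upwards [self_mem_nhdsWithin] with v hv
      rw [Function.update_of_ne hv]
    · refine (hG w hw hwp).congr ?_
      filter_upwards [isOpen_compl_singleton.mem_nhds hwp] with v hv
      rw [Function.update_of_ne hv]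
  choose S hS using hWu
  obtain ⟨F, hFS⟩ := glob (S := S) (by
    intro z
    filter_upwards [(hS z).eventually_nhds] with z' hz'
    exact uniq hK hL hP hz' (hS z'))
  refine ⟨F, fun z => ?_⟩
  obtain ⟨c, hc⟩ := hFS z
  exact ((hS z).self_of_nhds.add_const c).congr hc

/-- A non-removable union has a non-removable part. -/
theorem union_remC (hK : IsCompact K) (hL : IsCompact L) (hP : (K ∩ L).Countable)
    (hg : ∀ p ∈ K ∩ L, Loops (K ∪ L) p) (f : ℂ ≃ₜ ℂ) (hf : DifferentiableOn ℂ f (K ∪ L)ᶜ)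
    (hfn : ¬ Differentiable ℂ f) :
    (∃ g : ℂ ≃ₜ ℂ, DifferentiableOn ℂ g Kᶜ ∧ ¬ Differentiable ℂ g) ∨
      (∃ g : ℂ ≃ₜ ℂ, DifferentiableOn ℂ g Lᶜ ∧ ¬ Differentiable ℂ g) := by
  obtain ⟨k1, k2, hF⟩ := exists_form K L hK hL f hf
  have hKc := hK.isClosed
  have hLc := hL.isClosed
  obtain ⟨hnK, hnL⟩ := nonvanC hKc hLc hP hF hf
  obtain ⟨F, hFl⟩ := exists_FC hKc hLc hP hg hf hF
  have hFc : Continuous F := continuous_iff_continuousAt.2 fun z => (hFl z).1
  have hFP : ∀ z, z ∉ K ∩ L → IsPr K L f k1 k2 F z := fun z hz => (hFl z).2 hz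
  have hFK : ∀ z, z ∉ K → HasDerivAt F (k1 z) z := fun z hz => (hFP z fun h => hz h.1).1 hz
  have hFL : ∀ z, z ∉ L → HasDerivAt (fun v => F (f.symm v)) (k2 (f z)) (f z) := fun z hz =>
    (hFP z fun h => hz h.2).2 hz
  obtain ⟨C0, R0, hR0, hCR0⟩ := hF.inf
  obtain ⟨C, R, hCR⟩ := asy hR0 (fun z hz => hFK z (hCR0 z hz).1) (fun z hz => (hCR0 z hz).2.2)
  -- behaviour at infinity
  have hprop : Tendsto F (cocompact ℂ) (cocompact ℂ) := by
    rw [← Metric.cobounded_eq_cocompact, ← comap_norm_atTop]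
    refine tendsto_comap_iff.2 ?_
    refine tendsto_atTop.2 fun M => ?_
    have hev : ∀ᶠ z : ℂ in comap norm atTop, max R (M + C) < ‖z‖ :=
      tendsto_comap.eventually (eventually_gt_atTop _)
    filter_upwards [hev] with z hz
    have h1 := hCR z (lt_of_le_of_lt (le_max_left _ _) hz)
    have h2 : M + C < ‖z‖ := lt_of_le_of_lt (le_max_right _ _) hz
    have h3 : ‖z‖ ≤ ‖F z‖ + ‖F z - z‖ := by
      have : z = F z - (F z - z) := by ring
      calc ‖z‖ = ‖F z - (F z - z)‖ := by rw [← this]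
        _ ≤ _ := norm_sub_le _ _
    simp only [Function.comp]
    linarith
  have hinf : ∃ R : ℝ, InjOn F {z | R < ‖z‖} := by
    refine inj_inf (R := max R R0) (C := C) ?_ fun z hz => hCR z (lt_of_le_of_lt (le_max_left _ _) hz)
    intro z hz
    have hz' : max R R0 < ‖z‖ := by simpa using hz
    exact (hFK z (hCR0 z (lt_of_le_of_lt (le_max_right _ _) hz')).1).differentiableAt.differentiableWithinAt
  obtain ⟨⟨Z, cZ, hloc⟩, hopen⟩ := openC hKc hLc hP hF hnK hnL isOpen_univ fun z _ => hFl z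
  obtain ⟨G, hG⟩ := homeo_of_charts F hFc 0 1 zero_ne_one hprop hinf Z cZ
    (fun z hz => hloc z (mem_univ z) hz) fun z _ _ => hopen z (mem_univ z)
  have hGF : (G : ℂ → ℂ) = F := funext hG
  have hG1 : DifferentiableOn ℂ G Kᶜ := by
    rw [hGF]
    exact fun z hz => (hFK z hz).differentiableAt.differentiableWithinAt
  have hG2 : DifferentiableOn ℂ (fun w => G (f.symm w)) (f '' Lᶜ) := by
    rw [hGF]
    rintro _ ⟨z, hz, rfl⟩
    exact (hFL z hz).differentiableAt.differentiableWithinAt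
  by_cases hGd : Differentiable ℂ G
  · exact Or.inr ⟨f, endgame f G hLc hGd hG2, hfn⟩
  · exact Or.inl ⟨G, hG1, hGd⟩

end Pool.Agent.H.MP_4bdd60_an.CT
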